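import Pool.Agent.H985R3.TA.Defs4

/-!
# Infinite clusters and arms to infinity (deterministic part)
-/

set_option autoImplicit false

namespace Pool.Agent.Y914.DP

open H974 H985T Finset

theorem mem_An {a N : ℕ} {e : Edg} : e ∈ An a N ↔ e ∈ boxE N ∧ e ∉ boxE a := by
  unfold An
  rw [Finset.mem_sdiff]

/-- the vertices of the box -/
def IB (n : ℕ) (v : Vtx) : Prop := (-(n : ℤ) ≤ v.1 ∧ v.1 ≤ n) ∧ (-(n : ℤ) ≤ v.2 ∧ v.2 ≤ n)

/-- the faces of the box -/
def IF (n : ℕ) (v : Vtx) : Prop := (-(n : ℤ) ≤ v.1 ∧ v.1 < n) ∧ (-(n : ℤ) ≤ v.2 ∧ v.2 < n)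

/-- strictly inside the box -/
def SI (n : ℕ) (v : Vtx) : Prop := (-(n : ℤ) < v.1 ∧ v.1 < n) ∧ (-(n : ℤ) < v.2 ∧ v.2 < n)

theorem onB_of {n : ℕ} {v : Vtx} (h1 : IB n v) (h2 : ¬ SI n v) : onB n v := by
  unfold onB inR
  unfold IB at h1
  unfold SI at h2
  omega

theorem onB_step {b : ℕ} {y z : Vtx} {e : Edg}
    (he : (src e = y ∧ tgt e = z) ∨ (src e = z ∧ tgt e = y)) (hy : IB b y) (hz : ¬ IB b z) :
    onB b y := by
  obtain ⟨p, q, β⟩ := e
  unfold onB inR
  unfold IB at hy hz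
  cases β
  · simp only [src_mk, tgt_false] at he
    rcases he with ⟨rfl, rfl⟩ | ⟨rfl, rfl⟩ <;> simp only at hy hz ⊢ <;> omega
  · simp only [src_mk, tgt_true] at he
    rcases he with ⟨rfl, rfl⟩ | ⟨rfl, rfl⟩ <;> simp only at hy hz ⊢ <;> omega

theorem edge_not_box {b : ℕ} {y z : Vtx} {e : Edg}
    (he : (src e = y ∧ tgt e = z) ∨ (src e = z ∧ tgt e = y)) (hz : ¬ IB b z) : e ∉ boxE b := by
  obtain ⟨p, q, β⟩ := e
  unfold IB at hz
  unfold boxE
  cases β
  · simp only [src_mk, tgt_false] at he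
    rw [mem_RE_false]
    rcases he with ⟨rfl, rfl⟩ | ⟨rfl, rfl⟩ <;> simp only at hz ⊢ <;> omega
  · simp only [src_mk, tgt_true] at he
    rw [mem_RE_true]
    rcases he with ⟨rfl, rfl⟩ | ⟨rfl, rfl⟩ <;> simp only at hz ⊢ <;> omega

theorem edge_box {N : ℕ} {y z : Vtx} {e : Edg}
    (he : (src e = y ∧ tgt e = z) ∨ (src e = z ∧ tgt e = y)) (hy : SI N y) : e ∈ boxE N ∧ IB N z := by
  obtain ⟨p, q, β⟩ := e
  unfold SI at hy
  unfold boxE IB
  cases β
  · simp only [src_mk, tgt_false] at he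
    rw [mem_RE_false]
    rcases he with ⟨rfl, rfl⟩ | ⟨rfl, rfl⟩ <;> simp only at hy ⊢ <;> omega
  · simp only [src_mk, tgt_true] at he
    rw [mem_RE_true]
    rcases he with ⟨rfl, rfl⟩ | ⟨rfl, rfl⟩ <;> simp only at hy ⊢ <;> omega

/-- a path from the inner box to the outside of the outer box crosses the annulus -/
theorem cross {b N : ℕ} (hbN : b ≤ N) {F : Set Edg} {v x : Vtx} (hv : IB b v) (hx : ¬ IB N x)
    (h : Reach F v x) : ∃ u u', onB b u ∧ onB N u' ∧ Reach (F ∩ ↑(An b N)) u u' := by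
  have key : ∀ y, Reach F v y → (∃ u u', onB b u ∧ onB N u' ∧ Reach (F ∩ ↑(An b N)) u u') ∨
      IB b y ∨ (¬ IB b y ∧ SI N y ∧ ∃ u, onB b u ∧ Reach (F ∩ ↑(An b N)) u y) := by
    intro y hy
    induction hy with
    | refl => exact Or.inr (Or.inl hv)
    | @tail y z _ hs ih =>
      rcases ih with ih | ih | ⟨h1, h2, u, hu, hr⟩
      · exact Or.inl ih
      · obtain ⟨e, he, hc⟩ := hs
        by_cases hz : IB b z
        · exact Or.inr (Or.inl hz)
        · have hon := onB_step hc ih hz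
          rcases Nat.lt_or_ge b N with hlt | hge
          · have hsi : SI N y := by
              unfold IB at ih
              unfold SI
              omega
            obtain ⟨k1, k2⟩ := edge_box hc hsi
            have k3 := edge_not_box hc hz
            have hr : Reach (F ∩ ↑(An b N)) y z :=
              Adj.reach ⟨e, ⟨he, mem_coe.2 (mem_An.2 ⟨k1, k3⟩)⟩, hc⟩
            by_cases hs : SI N z
            · exact Or.inr (Or.inr ⟨hz, hs, y, hon, hr⟩)
            · exact Or.inl ⟨y, z, hon, onB_of k2 hs, hr⟩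
          · have : b = N := le_antisymm hbN hge
            subst this
            exact Or.inl ⟨y, y, hon, hon, Reach.refl _ _⟩
      · obtain ⟨e, he, hc⟩ := hs
        by_cases hz : IB b z
        · exact Or.inr (Or.inl hz)
        · obtain ⟨k1, k2⟩ := edge_box hc h2
          have k3 := edge_not_box hc hz
          have hr' : Reach (F ∩ ↑(An b N)) u z :=
            hr.trans (Adj.reach ⟨e, ⟨he, mem_coe.2 (mem_An.2 ⟨k1, k3⟩)⟩, hc⟩)
          by_cases hs : SI N z
          · exact Or.inr (Or.inr ⟨hz, hs, u, hu, hr'⟩)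
          · exact Or.inl ⟨u, z, hu, onB_of k2 hs, hr'⟩
  rcases key x h with h1 | h1 | ⟨_, h1, _⟩
  · exact h1
  · exfalso
    apply hx
    unfold IB at h1 ⊢
    omega
  · exfalso
    apply hx
    unfold SI at h1
    unfold IB
    omega

theorem nb_step {b : ℕ} {y z : Vtx} {e : Edg}
    (he : (dsrc e = y ∧ dtgt e = z) ∨ (dsrc e = z ∧ dtgt e = y)) (hy : IF b y) (hz : ¬ IF b z) :
    nb b z := by
  obtain ⟨p, q, β⟩ := e
  unfold nb
  unfold IF at hy hz
  cases β
  · simp only [dtgt_mk, dsrc_false] at he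
    rcases he with ⟨rfl, rfl⟩ | ⟨rfl, rfl⟩ <;> simp only at hy hz ⊢ <;> omega
  · simp only [dtgt_mk, dsrc_true] at he
    rcases he with ⟨rfl, rfl⟩ | ⟨rfl, rfl⟩ <;> simp only at hy hz ⊢ <;> omega

theorem dedge_box {N : ℕ} {y z : Vtx} {e : Edg}
    (he : (dsrc e = y ∧ dtgt e = z) ∨ (dsrc e = z ∧ dtgt e = y)) (hy : IF N y) : e ∈ boxE N := by
  obtain ⟨p, q, β⟩ := e
  unfold IF at hy
  unfold boxE
  cases β
  · simp only [dtgt_mk, dsrc_false] at he
    rw [mem_RE_false]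
    rcases he with ⟨rfl, rfl⟩ | ⟨rfl, rfl⟩ <;> simp only at hy ⊢ <;> omega
  · simp only [dtgt_mk, dsrc_true] at he
    rw [mem_RE_true]
    rcases he with ⟨rfl, rfl⟩ | ⟨rfl, rfl⟩ <;> simp only at hy ⊢ <;> omega

theorem dedge_not_box {b : ℕ} {y z : Vtx} {e : Edg}
    (he : (dsrc e = y ∧ dtgt e = z) ∨ (dsrc e = z ∧ dtgt e = y)) (hy : ¬ IF b y) (hz : ¬ IF b z) :
    e ∉ boxE b := by
  obtain ⟨p, q, β⟩ := e
  unfold IF at hy hz
  unfold boxE
  cases β
  · simp only [dtgt_mk, dsrc_false] at he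
    rw [mem_RE_false]
    rcases he with ⟨rfl, rfl⟩ | ⟨rfl, rfl⟩ <;> simp only at hy hz ⊢ <;> omega
  · simp only [dtgt_mk, dsrc_true] at he
    rw [mem_RE_true]
    rcases he with ⟨rfl, rfl⟩ | ⟨rfl, rfl⟩ <;> simp only at hy hz ⊢ <;> omega

/-- the same for dual paths -/
theorem dcross {b N : ℕ} (hbN : b ≤ N) {F : Set Edg} {v x : Vtx} (hv : IF b v) (hx : ¬ IF N x)
    (h : DReach Fᶜ v x) : ∃ w w', nb b w ∧ nb N w' ∧ DReach (↑(An b N) \ F) w w' := by
  have key : ∀ y, DReach Fᶜ v y → (∃ w w', nb b w ∧ nb N w' ∧ DReach (↑(An b N) \ F) w w') ∨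
      IF b y ∨ (¬ IF b y ∧ IF N y ∧ ∃ w, nb b w ∧ DReach (↑(An b N) \ F) w y) := by
    intro y hy
    induction hy with
    | refl => exact Or.inr (Or.inl hv)
    | @tail y z _ hs ih =>
      rcases ih with ih | ih | ⟨h1, h2, u, hu, hr⟩
      · exact Or.inl ih
      · obtain ⟨e, he, hc⟩ := hs
        by_cases hz : IF b z
        · exact Or.inr (Or.inl hz)
        · have hon := nb_step hc ih hz
          rcases Nat.lt_or_ge b N with hlt | hge
          · have hN : IF N z := by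
              unfold nb at hon
              unfold IF
              omega
            exact Or.inr (Or.inr ⟨hz, hN, z, hon, DReach.refl _ _⟩)
          · have : b = N := le_antisymm hbN hge
            subst this
            exact Or.inl ⟨z, z, hon, hon, DReach.refl _ _⟩
      · obtain ⟨e, he, hc⟩ := hs
        by_cases hz : IF b z
        · exact Or.inr (Or.inl hz)
        · have k1 := dedge_box hc h2
          have k3 := dedge_not_box hc h1 hz
          have hr' : DReach (↑(An b N) \ F) u z :=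
            hr.trans (DAdj.reach ⟨e, ⟨mem_coe.2 (mem_An.2 ⟨k1, k3⟩), he⟩, hc⟩)
          by_cases hs : IF N z
          · exact Or.inr (Or.inr ⟨hz, hs, u, hu, hr'⟩)
          · exact Or.inl ⟨u, z, hu, nb_step hc h2 hs, hr'⟩
  rcases key x h with h1 | h1 | ⟨_, h1, _⟩
  · exact h1
  · exfalso
    apply hx
    unfold IF at h1 ⊢
    omega
  · exact absurd h1 hx

theorem fin_IB (N : ℕ) : {v : Vtx | IB N v}.Finite := by
  refine (Set.Finite.prod (Set.finite_Icc (-(N:ℤ)) N) (Set.finite_Icc (-(N:ℤ)) N)).subset ?_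
  rintro ⟨x, y⟩ h
  have h1 : IB N (x, y) := h
  unfold IB at h1
  simp only [Set.mem_prod, Set.mem_Icc]
  exact h1

theorem fin_IF (N : ℕ) : {v : Vtx | IF N v}.Finite := by
  refine (fin_IB N).subset ?_
  rintro ⟨x, y⟩ h
  have h1 : IF N (x, y) := h
  unfold IF at h1
  change IB N (x, y)
  unfold IB
  omega

theorem onB_finite (a : ℕ) : {u : Vtx | onB a u}.Finite := by
  refine (fin_IB a).subset ?_
  rintro ⟨x, y⟩ h
  have h1 : onB a (x, y) := h
  unfold onB inR at h1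
  change IB a (x, y)
  unfold IB
  omega

theorem onB_inj {m n : ℕ} {u : Vtx} (h : onB m u) (h' : onB n u) : m = n := by
  unfold onB inR at h h'
  omega

theorem nb_finite (a : ℕ) : {u : Vtx | nb a u}.Finite := by
  refine (fin_IB (a + 1)).subset ?_
  rintro ⟨x, y⟩ h
  have h1 : nb a (x, y) := h
  unfold nb at h1
  change IB (a + 1) (x, y)
  unfold IB
  push_cast
  omega

theorem nb_inj {m n : ℕ} {u : Vtx} (h : nb m u) (h' : nb n u) : m = n := by
  unfold nb at h h'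
  omega

theorem OA_infinite {a : ℕ} {F : Set Edg}
    (h : ∀ R : ℕ, ∃ u u', onB a u ∧ onB (a + R) u' ∧ Reach (F ∩ ↑(An a (a + R))) u u') :
    ∃ v : Vtx, {u | Reach F v u}.Infinite := by
  by_contra hcon
  push Not at hcon
  have hfin : (⋃ v ∈ {u : Vtx | onB a u}, {u | Reach F v u}).Finite :=
    (onB_finite a).biUnion fun v _ => hcon v
  choose u u' hu hu' hr using h
  have hinj : Function.Injective u' := by
    intro R R' he
    have h1 := hu' R
    rw [he] at h1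
    have := onB_inj h1 (hu' R')
    omega
  refine (Set.infinite_of_injective_forall_mem hinj fun R => ?_) hfin
  simp only [Set.mem_iUnion]
  exact ⟨u R, hu R, (hr R).mono Set.inter_subset_left⟩

theorem DA_infinite {a : ℕ} {F : Set Edg}
    (h : ∀ R : ℕ, ∃ w w', nb a w ∧ nb (a + R) w' ∧ DReach (↑(An a (a + R)) \ F) w w') :
    ∃ f : Vtx, {g | DReach Fᶜ f g}.Infinite := by
  by_contra hcon
  push Not at hcon
  have hfin : (⋃ v ∈ {u : Vtx | nb a u}, {u | DReach Fᶜ v u}).Finite :=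
    (nb_finite a).biUnion fun v _ => hcon v
  choose u u' hu hu' hr using h
  have hinj : Function.Injective u' := by
    intro R R' he
    have h1 := hu' R
    rw [he] at h1
    have := nb_inj h1 (hu' R')
    omega
  refine (Set.infinite_of_injective_forall_mem hinj fun R => ?_) hfin
  simp only [Set.mem_iUnion]
  exact ⟨u R, hu R, (hr R).mono fun e he => he.2⟩

theorem inf_cross {F : Set Edg} {v : Vtx} (hv : {u | Reach F v u}.Infinite) {b : ℕ} (hb : IB b v)
    (R : ℕ) : ∃ u u', onB b u ∧ onB (b + R) u' ∧ Reach (F ∩ ↑(An b (b + R))) u u' := by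
  have : ∃ x, Reach F v x ∧ ¬ IB (b + R) x := by
    by_contra hcon
    push Not at hcon
    exact hv ((fin_IB (b + R)).subset fun x hx => hcon x hx)
  obtain ⟨x, h1, h2⟩ := this
  exact cross (by omega) hb h2 h1

theorem inf_dcross {F : Set Edg} {v : Vtx} (hv : {u | DReach Fᶜ v u}.Infinite) {b : ℕ}
    (hb : IF b v) (R : ℕ) :
    ∃ w w', nb b w ∧ nb (b + R) w' ∧ DReach (↑(An b (b + R)) \ F) w w' := by
  have : ∃ x, DReach Fᶜ v x ∧ ¬ IF (b + R) x := by
    by_contra hcon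
    push Not at hcon
    exact hv ((fin_IF (b + R)).subset fun x hx => hcon x hx)
  obtain ⟨x, h1, h2⟩ := this
  exact dcross (by omega) hb h2 h1

theorem inf1_0 (F : Set Edg) : (∃ v : Vtx, {u | Reach F v u}.Infinite) ↔
    ∃ a : ℕ, ∀ R : ℕ, ∃ u u', onB (a + 1) u ∧ onB (a + 1 + R) u' ∧
      Reach (F ∩ ↑(An (a + 1) (a + 1 + R))) u u' := by
  constructor
  · rintro ⟨v, hv⟩
    refine ⟨v.1.natAbs + v.2.natAbs, fun R => inf_cross hv ?_ R⟩
    unfold IB
    omega
  · rintro ⟨a, h⟩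
    exact OA_infinite h

theorem inf2_0 (F : Set Edg) : ((∃ v : Vtx, {u | Reach F v u}.Infinite) ∧
      ∃ f : Vtx, {g | DReach Fᶜ f g}.Infinite) ↔
    ∃ a : ℕ, ∀ R : ℕ, AA (a + 1) (a + 1 + R) F := by
  constructor
  · rintro ⟨⟨v, hv⟩, f, hf⟩
    refine ⟨v.1.natAbs + v.2.natAbs + f.1.natAbs + f.2.natAbs, fun R => ⟨inf_cross hv ?_ R,
      inf_dcross hf ?_ R⟩⟩
    · unfold IB
      omega
    · unfold IF
      omega
  · rintro ⟨a, h⟩
    exact ⟨OA_infinite fun R => (h R).1, DA_infinite fun R => (h R).2⟩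

/-- graphs -/
theorem comp_iff {V : Type} (G : SimpleGraph V) (r : V → V → Prop)
    (h : ∀ u v, G.Reachable u v ↔ r u v) :
    (∃ C : G.ConnectedComponent, C.supp.Infinite) ↔ ∃ v, {u | r v u}.Infinite := by
  constructor
  · rintro ⟨C, hC⟩
    obtain ⟨v, rfl⟩ := C.exists_rep
    refine ⟨v, hC.mono ?_⟩
    intro u hu
    have h1 : G.connectedComponentMk u = G.connectedComponentMk v :=
      (SimpleGraph.ConnectedComponent.mem_supp_iff _ _).mp hu
    exact (h v u).mp (SimpleGraph.ConnectedComponent.exact h1).symm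
  · rintro ⟨v, hv⟩
    refine ⟨G.connectedComponentMk v, hv.mono ?_⟩
    intro u hu
    rw [SimpleGraph.ConnectedComponent.mem_supp_iff]
    exact SimpleGraph.ConnectedComponent.sound ((h v u).mpr hu).symm

theorem reach_iff {V : Type} (G : SimpleGraph V) (A : V → V → Prop)
    (h1 : ∀ u v, G.Adj u v → A u v) (h2 : ∀ u v, A u v → G.Adj u v) (u v : V) :
    G.Reachable u v ↔ Relation.ReflTransGen A u v := by
  constructor
  · rintro ⟨p⟩
    induction p with
    | nil => exact Relation.ReflTransGen.refl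
    | cons hadj _ ih => exact Relation.ReflTransGen.head (h1 _ _ hadj) ih
  · intro h
    induction h with
    | refl => exact SimpleGraph.Reachable.refl _
    | tail _ hs ih => exact ih.trans (h2 _ _ hs).reachable

theorem bG_adj (η : Edg → Bool) (u v : Vtx) :
    (SimpleGraph.fromRel (fun u v : ℤ × ℤ =>
      (v = (u.1 + 1, u.2) ∧ η (u.1, u.2, true) = true) ∨
        (v = (u.1, u.2 + 1) ∧ η (u.1, u.2, false) = true))).Adj u v ↔
      Adj {e | η e = true} u v := by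
  rw [SimpleGraph.fromRel_adj]
  constructor
  · rintro ⟨_, (⟨h, h1⟩ | ⟨h, h1⟩) | (⟨h, h1⟩ | ⟨h, h1⟩)⟩
    · exact ⟨(u.1, u.2, true), h1, Or.inl ⟨rfl, h.symm⟩⟩
    · exact ⟨(u.1, u.2, false), h1, Or.inl ⟨rfl, h.symm⟩⟩
    · exact ⟨(v.1, v.2, true), h1, Or.inr ⟨rfl, h.symm⟩⟩
    · exact ⟨(v.1, v.2, false), h1, Or.inr ⟨rfl, h.symm⟩⟩
  · rintro ⟨⟨x, y, β⟩, he, hc⟩
    cases β
    · simp only [src_mk, tgt_false] at hc
      rcases hc with ⟨rfl, rfl⟩ | ⟨rfl, rfl⟩
      · exact ⟨by simp, Or.inl (Or.inr ⟨rfl, he⟩)⟩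
      · exact ⟨by simp, Or.inr (Or.inr ⟨rfl, he⟩)⟩
    · simp only [src_mk, tgt_true] at hc
      rcases hc with ⟨rfl, rfl⟩ | ⟨rfl, rfl⟩
      · exact ⟨by simp, Or.inl (Or.inl ⟨rfl, he⟩)⟩
      · exact ⟨by simp, Or.inr (Or.inl ⟨rfl, he⟩)⟩

theorem wG_adj (η : Edg → Bool) (u v : Vtx) :
    (SimpleGraph.fromRel (fun f g : ℤ × ℤ =>
      (g = (f.1 + 1, f.2) ∧ η (g.1, g.2, false) = false) ∨
        (g = (f.1, f.2 + 1) ∧ η (g.1, g.2, true) = false))).Adj u v ↔
      DAdj {e | η e = true}ᶜ u v := by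
  have hmem : ∀ e, e ∈ ({e | η e = true}ᶜ : Set Edg) ↔ η e = false := by
    intro e
    simp
  rw [SimpleGraph.fromRel_adj]
  constructor
  · rintro ⟨_, (⟨h, h1⟩ | ⟨h, h1⟩) | (⟨h, h1⟩ | ⟨h, h1⟩)⟩
    · refine ⟨(v.1, v.2, false), (hmem _).mpr h1, Or.inl ⟨?_, rfl⟩⟩
      rw [h]
      simp
    · refine ⟨(v.1, v.2, true), (hmem _).mpr h1, Or.inl ⟨?_, rfl⟩⟩
      rw [h]
      simp
    · refine ⟨(u.1, u.2, false), (hmem _).mpr h1, Or.inr ⟨?_, rfl⟩⟩
      rw [h]
      simp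
    · refine ⟨(u.1, u.2, true), (hmem _).mpr h1, Or.inr ⟨?_, rfl⟩⟩
      rw [h]
      simp
  · rintro ⟨⟨x, y, β⟩, he, hc⟩
    have he' := (hmem _).mp he
    cases β
    · simp only [dtgt_mk, dsrc_false] at hc
      rcases hc with ⟨rfl, rfl⟩ | ⟨rfl, rfl⟩
      · exact ⟨by simp, Or.inl (Or.inl ⟨by simp, he'⟩)⟩
      · refine ⟨?_, Or.inr (Or.inl ⟨by simp, he'⟩)⟩
        intro h
        have := congrArg Prod.fst h
        simp only at this
        omega
    · simp only [dtgt_mk, dsrc_true] at hc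
      rcases hc with ⟨rfl, rfl⟩ | ⟨rfl, rfl⟩
      · exact ⟨by simp, Or.inl (Or.inr ⟨by simp, he'⟩)⟩
      · refine ⟨?_, Or.inr (Or.inr ⟨by simp, he'⟩)⟩
        intro h
        have := congrArg Prod.snd h
        simp only at this
        omega

end Pool.Agent.Y914.DP
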