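import Pool.Agent.Y554.DP.Stm3
import Pool.Agent.Y914.DP.Inf0

/-!
# Infinite clusters and arms to infinity: the statements `S_INF1`, `S_INF2`, `S_GR`
-/

set_option autoImplicit false

namespace Pool.Agent.Y914.DP

open H974 H985T Finset
open Pool.Agent.Y554.DP

theorem inf1 : S_INF1 := fun F => inf1_0 F

theorem inf2 : S_INF2 := fun F => inf2_0 F

theorem gr : S_GR := fun η =>
  ⟨comp_iff (bG η) (fun v u => Reach {e | η e = true} v u) fun u v =>
      reach_iff (bG η) (Adj {e | η e = true}) (fun a b h => (bG_adj η a b).mp h)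
        (fun a b h => (bG_adj η a b).mpr h) u v,
    comp_iff (wG η) (fun v u => DReach {e | η e = true}ᶜ v u) fun u v =>
      reach_iff (wG η) (DAdj {e | η e = true}ᶜ) (fun a b h => (wG_adj η a b).mp h)
        (fun a b h => (wG_adj η a b).mpr h) u v⟩

end Pool.Agent.Y914.DP
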